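import Pool.Agent.Helper623.TB.Final
set_option autoImplicit false
open scoped Topology ENNReal
open Filter

namespace Pool.Agent.Results.MP_43aa21_an.NoTBasis

open Pool.Agent.Helper623.TB Pool.Agent.Helper623.TB.Final

/-- (1) There is a real Banach space `E` with a sequence that is at the same time a double
operational basis and a double generalized summation basis of `E`, while no sequence in `E` is a
`T`-basis for any consistent matrix `T` (triangular or not).
(2) The reason: every real Banach space with a `T`-basis, for some consistent matrix `T`, has the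
bounded approximation property. -/
theorem result :
    (∃ (E : Type) (_ : NormedAddCommGroup E) (_ : NormedSpace ℝ E) (_ : CompleteSpace E),
      (∃ x : ℕ → E, IsDoubleOperationalBasis x ∧ IsDoubleGenSummationBasis x) ∧
      ∀ T : ℕ → ℕ → ℝ, IsConsistent T → ∀ x : ℕ → E, ¬ IsTBasis T x) ∧
    (∀ (E : Type) (_ : NormedAddCommGroup E) (_ : NormedSpace ℝ E) (_ : CompleteSpace E)
      (T : ℕ → ℕ → ℝ) (x : ℕ → E), IsConsistent T → IsTBasis T x → BAP E) := by
  refine ⟨?_, ?_⟩
  · have hcomp : CompleteSpace D.S := D.S_closed.completeSpace_coe
    exact ⟨D.S, inferInstance, inferInstance, hcomp, exists_bases D no_bap,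
      fun T hT x hx => no_bap (Gen.bap_of_tbasis hT hx)⟩
  · intro E _ _ _ T x hT hx
    exact Gen.bap_of_tbasis hT hx

end Pool.Agent.Results.MP_43aa21_an.NoTBasis
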